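import Pool.Agent.H77.KG.Targets2

/-! Board kgr, row MAC (helper67). -/

set_option autoImplicit false

open Set Pool.Agent.H77.BC Pool.Agent.H77.BD Pool.Agent.H77.KG Module

namespace Pool.Agent.H67.KGR

private theorem root {M : Type} (U : RU M) {K : Type} [Field K] [Cod M K] [DF U K] [Infinite K]
    (L : Type) [Field L] [Algebra K L] [FiniteDimensional K L] :
    (∀ q : ℕ, 0 < q → ∀ x : L, ∃ y : L, y ^ q = x) ∧
      ∀ p : ℕ, p.Prime → CharP L p → ∀ x : L, ∃ y : L, y ^ p - y = x := by
  let b : Basis (Fin (finrank K L)) K L := finBasis K L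
  let iC : Cod M L := ⟨Cod.ι M (Fin (finrank K L) → K), inferInstance,
    fun x => Cod.c (b.equivFun x), fun x y h => b.equivFun.injective (Cod.inj (M := M) h)⟩
  have hful : Ful U L := ⟨by
    have h := Ful.full (U := U) (α := Fin (finrank K L) → K)
    unfold RU.D at h ⊢
    have e : Cod.c (M := M) '' (univ : Set L) =
        Cod.c (M := M) '' (univ : Set (Fin (finrank K L) → K)) := by
      ext z
      constructor
      · rintro ⟨x, -, rfl⟩
        exact ⟨b.equivFun x, mem_univ _, rfl⟩
      · rintro ⟨y, -, rfl⟩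
        refine ⟨b.equivFun.symm y, mem_univ _, ?_⟩
        change Cod.c (M := M) (b.equivFun (b.equivFun.symm y)) = _
        rw [LinearEquiv.apply_symm_apply]
    rw [e]
    exact h⟩
  have h1 : DFn U (fun x : L => (b.equivFun x : Fin (finrank K L) → K)) :=
    DFn_of_code id fun _ => rfl
  have h2 : DFn U (fun y : Fin (finrank K L) → K => b.equivFun.symm y) :=
    DFn_of_code id fun y => by
      change Cod.c (M := M) (b.equivFun (b.equivFun.symm y)) = _
      rw [LinearEquiv.apply_symm_apply]
      rfl
  have hc1 : ∀ i, DFn U (fun p : L × L => b.equivFun p.1 i) := fun i =>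
    DFn_comp (g := fun y : Fin (finrank K L) → K => y i) (DFn_apply i)
      (DFn_comp (g := fun x : L => (b.equivFun x : Fin (finrank K L) → K)) h1 DFn_fst)
  have hc2 : ∀ i, DFn U (fun p : L × L => b.equivFun p.2 i) := fun i =>
    DFn_comp (g := fun y : Fin (finrank K L) → K => y i) (DFn_apply i)
      (DFn_comp (g := fun x : L => (b.equivFun x : Fin (finrank K L) → K)) h1 DFn_snd)
  have hadd : DFn U (fun p : L × L => p.1 + p.2) := by
    have h3 : DFn U (fun p : L × L => (fun i => b.equivFun p.1 i + b.equivFun p.2 i :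
        Fin (finrank K L) → K)) := DFn_vec fun i => DFn_add (hc1 i) (hc2 i)
    have h4 := DFn_comp (g := fun y : Fin (finrank K L) → K => b.equivFun.symm y) h2 h3
    have e : (fun p : L × L => p.1 + p.2) = fun p : L × L => b.equivFun.symm
        (fun i => b.equivFun p.1 i + b.equivFun p.2 i) := by
      funext p
      rw [LinearEquiv.eq_symm_apply, map_add]
      rfl
    rw [e]
    exact h4
  have hmul : DFn U (fun p : L × L => p.1 * p.2) := by
    have h3 : DFn U (fun p : L × L => (fun k => ∑ i, ∑ j,
        (b.equivFun p.1 i * b.equivFun p.2 j) * b.equivFun (b i * b j) k :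
        Fin (finrank K L) → K)) := DFn_vec fun k => DFn_sum _ fun i _ => DFn_sum _ fun j _ =>
          DFn_mul (DFn_mul (hc1 i) (hc2 j)) (DFn_const _)
    have h4 := DFn_comp (g := fun y : Fin (finrank K L) → K => b.equivFun.symm y) h2 h3
    have e : (fun p : L × L => p.1 * p.2) = fun p : L × L => b.equivFun.symm
        (fun k => ∑ i, ∑ j,
        (b.equivFun p.1 i * b.equivFun p.2 j) * b.equivFun (b i * b j) k) := by
      funext p
      rw [LinearEquiv.eq_symm_apply]
      have h5 : p.1 * p.2 = ∑ i, ∑ j, (b.equivFun p.1 i * b.equivFun p.2 j) • (b i * b j) := by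
        conv_lhs => rw [← b.sum_equivFun p.1, ← b.sum_equivFun p.2]
        rw [Finset.sum_mul]
        refine Finset.sum_congr rfl fun i _ => ?_
        rw [Finset.mul_sum]
        refine Finset.sum_congr rfl fun j _ => ?_
        rw [smul_mul_smul_comm]
      rw [h5]
      funext k
      simp only [map_sum, map_smul, Finset.sum_apply, Pi.smul_apply, smul_eq_mul]
    rw [e]
    exact h4
  have hDF : DF U L := ⟨hadd, hmul⟩
  have hinf : Infinite L := Infinite.of_injective _ (FaithfulSMul.algebraMap_injective K L)
  exact Pool.Agent.H77.BCP.a_FSP U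

theorem pf_MAC (hMAL : T_MAL) : T_MAC := by
  intro M U K _ _ _ _
  refine hMAL (K := K) ?_
  intro L _ _ _
  exact root (K := K) U L

end Pool.Agent.H67.KGR
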