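import Pool.Agent.H77.KG.Targets2

/-! Board kgr, row MAL (helper67). -/

set_option autoImplicit false

open Set Pool.Agent.H77.BC Pool.Agent.H77.BD Pool.Agent.H77.KG Module Polynomial

namespace Pool.Agent.H67.KGR

private theorem cyc_map (q : ℕ) (K A B : Type) [Field K] [Field A] [Field B] [Algebra K A]
    [Algebra A B] : ((cyclotomic q K).map (algebraMap K A)).map (algebraMap A B) =
      cyclotomic q B := by
  rw [map_cyclotomic, map_cyclotomic]

theorem pf_MAL : T_MAL := by
  intro K _ h
  have hperf : PerfectField K := by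
    obtain ⟨p, hp⟩ := CharP.exists K
    rcases CharP.char_is_prime_or_zero K p with hp1 | rfl
    · have : Fact p.Prime := ⟨hp1⟩
      have : ExpChar K p := ExpChar.prime hp1
      have hPR : PerfectRing K p := PerfectRing.ofSurjective K p (fun x => by
        obtain ⟨y, hyx⟩ := (h K).1 p hp1.pos x
        exact ⟨y, hyx⟩)
      exact PerfectRing.toPerfectField K p
    · have : CharZero K := CharP.charP_to_charZero K
      infer_instance
  refine IsAlgClosed.of_exists_root K fun f hfm hf => ?_
  by_contra hne
  -- the splitting field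
  have hsp := SplittingField.splits f
  have hd : finrank K (SplittingField f) ≠ 1 := by
    intro h1
    have hdeg : (f.map (algebraMap K (SplittingField f))).degree ≠ 0 := by
      rw [degree_map]
      exact hf.degree_pos.ne'
    obtain ⟨x, hx⟩ := hsp.exists_eval_eq_zero hdeg
    have h2 := (Subalgebra.bot_eq_top_iff_finrank_eq_one (F := K) (E := SplittingField f)).2 h1
    have h3 : x ∈ (⊥ : Subalgebra K (SplittingField f)) := by
      rw [h2]; trivial
    obtain ⟨y, rfl⟩ := Algebra.mem_bot.1 h3
    apply hne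
    refine ⟨y, ?_⟩
    rw [eval_map_algebraMap, aeval_algebraMap_apply] at hx
    exact (map_eq_zero _).1 hx
  obtain ⟨q, hq, hqd⟩ := Nat.exists_prime_and_dvd hd
  have hqF : Fact q.Prime := ⟨hq⟩
  let g : K[X] := cyclotomic q K
  let F : Type := SplittingField (g.map (algebraMap K (SplittingField f)))
  have : IsSplittingField K F (f * g) :=
    IsSplittingField.mul F (K := SplittingField f) f g hf.ne_zero (cyclotomic_ne_zero q K)
  have hfd : FiniteDimensional K F := IsSplittingField.finiteDimensional F (f * g)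
  have hnorm : Normal K F := Normal.of_isSplittingField (f * g)
  have hgal : IsGalois K F := ⟨⟩
  have hqd2 : q ∣ Nat.card (F ≃ₐ[K] F) := by
    rw [IsGalois.card_aut_eq_finrank]
    exact hqd.trans ⟨_, (finrank_mul_finrank K (SplittingField f) F).symm⟩
  obtain ⟨σ, hσ⟩ := exists_prime_orderOf_dvd_card' q hqd2
  let L : IntermediateField K F := IntermediateField.fixedField (Subgroup.zpowers σ)
  have hfix : ∀ x, σ x = x ↔ x ∈ L := by
    intro x
    rw [IntermediateField.mem_fixedField_iff]
    constructor
    · rintro hx _ ⟨n, rfl⟩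
      have h1 : σ ∈ MulAction.stabilizer (F ≃ₐ[K] F) x := hx
      exact (MulAction.stabilizer (F ≃ₐ[K] F) x).zpow_mem h1 n
    · intro h
      exact h σ (Subgroup.mem_zpowers σ)
  have hσq : ∀ x, (⇑(σ.toRingEquiv : F ≃+* F))^[q] x = x := by
    intro x
    have h1 : σ ^ q = 1 := by rw [← hσ]; exact pow_orderOf_eq_one σ
    have h2 : ∀ (n : ℕ) (x : F), (σ ^ n) x = (⇑(σ.toRingEquiv : F ≃+* F))^[n] x := by
      intro n
      induction n with
      | zero => intro x; rfl
      | succ n ih =>
        intro x
        rw [pow_succ, Function.iterate_succ_apply, ← ih]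
        rfl
    rw [← h2, h1]
    rfl
  obtain ⟨hr1, hr2⟩ := h L
  have hσ1 : ∃ x, (σ.toRingEquiv : F ≃+* F) x ≠ x := by
    by_contra hcon
    push Not at hcon
    have h1 : σ = 1 := AlgEquiv.ext hcon
    rw [h1, orderOf_one] at hσ
    exact hq.one_lt.ne hσ
  by_cases hch : (q : F) = 0
  · have hcp : CharP F q := by
      obtain ⟨p, hp⟩ := CharP.exists F
      have h1 := (CharP.cast_eq_zero_iff F p q).1 hch
      rcases (Nat.dvd_prime hq).1 h1 with h2 | h2
      · exact absurd h2 (CharP.char_ne_one F p)
      · rwa [h2] at hp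
    have hcpL : CharP L q := by infer_instance
    refine Pool.Agent.H12.BCP.gal_char (σ.toRingEquiv : F ≃+* F) L.toSubfield q hσq hσ1 hfix
      fun x hx => ?_
    obtain ⟨y, hy⟩ := hr2 q hq hcpL ⟨x, hx⟩
    exact ⟨y, y.2, congrArg Subtype.val hy⟩
  · have hnz : NeZero (q : F) := ⟨hch⟩
    have hq0 : NeZero q := ⟨hq.ne_zero⟩
    obtain ⟨z, hz⟩ : ∃ z : F, IsPrimitiveRoot z q := by
      have hs := SplittingField.splits (g.map (algebraMap K (SplittingField f)))
      have hg : (g.map (algebraMap K (SplittingField f))).map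
          (algebraMap (SplittingField f) F) = cyclotomic q F := cyc_map q K (SplittingField f) F
      change ((g.map (algebraMap K (SplittingField f))).map
          (algebraMap (SplittingField f) F)).Splits at hs
      rw [hg] at hs
      have hdeg : (cyclotomic q F).degree ≠ 0 :=
        (degree_cyclotomic_pos q F hq.pos).ne'
      obtain ⟨z, hz⟩ := hs.exists_eval_eq_zero hdeg
      exact ⟨z, isRoot_cyclotomic_iff.1 hz⟩
    have hzL : z ∈ L := (hfix z).1
      (Pool.Agent.H12.BCP.gal_zeta (σ.toRingEquiv : F ≃+* F) q hσq z hz)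
    have hLfin : finrank L F = q := by
      rw [IntermediateField.finrank_fixedField_eq_card, Nat.card_zpowers, hσ]
    have hzL' : IsPrimitiveRoot (⟨z, hzL⟩ : L) q := by
      refine IsPrimitiveRoot.of_map_of_injective (f := algebraMap L F) hz
        (FaithfulSMul.algebraMap_injective L F)
    have hprim : (primitiveRoots (finrank L F) L).Nonempty := by
      rw [hLfin]
      exact ⟨⟨z, hzL⟩, (mem_primitiveRoots hq.pos).2 hzL'⟩
    have hcyc : IsCyclic (F ≃ₐ[L] F) := by
      refine isCyclic_of_prime_card (p := q) ?_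
      rw [IsGalois.card_aut_eq_finrank, hLfin]
    obtain ⟨α, ⟨β, hβ⟩, hα⟩ := exists_root_adjoin_eq_top_of_isCyclic L F hprim
    rw [hLfin] at hβ
    have hβ' : (β : F) = α ^ q := hβ
    obtain ⟨b, hbq'⟩ := hr1 q hq.pos β
    have hbq : (b : F) ^ q = β := congrArg Subtype.val hbq'
    have hαL : α ∈ L := by
      by_cases hα0 : α = 0
      · rw [hα0]
        exact L.zero_mem
      have hb0 : (b : F) ≠ 0 := by
        intro hb
        rw [hb, zero_pow hq.ne_zero] at hbq
        have h1 : α ^ q = 0 := by rw [← hβ', ← hbq]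
        exact hα0 (pow_eq_zero_iff hq.ne_zero |>.1 h1)
      have h1 : (α / b) ^ q = 1 := by
        rw [div_pow, hbq, ← hβ', div_self]
        rw [hβ']
        exact pow_ne_zero _ hα0
      obtain ⟨i, -, hi⟩ := hz.eq_pow_of_pow_eq_one h1
      have h2 : α = z ^ i * b := by
        rw [hi, div_mul_cancel₀ _ hb0]
      rw [h2]
      exact L.mul_mem (pow_mem hzL i) b.2
    have htop : (⊥ : IntermediateField L F) = ⊤ := by
      rw [← hα, eq_comm, IntermediateField.adjoin_simple_eq_bot_iff]
      exact IntermediateField.mem_bot.2 ⟨⟨α, hαL⟩, rfl⟩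
    have h1 : finrank L F = 1 := IntermediateField.bot_eq_top_iff_finrank_eq_one.1 htop
    rw [hLfin] at h1
    exact hq.one_lt.ne' h1

end Pool.Agent.H67.KGR
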