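import Pool.Agent.H77.KG.Targets2

/-! Board kgr, row VFD (helper67). -/

set_option autoImplicit false

open Set Pool.Agent.H77.BC Pool.Agent.H77.BD Pool.Agent.H77.KG

namespace Pool.Agent.H67.KGR

section

variable {M : Type} {U : RU M} {G V : Type} [Group G] [AddCommGroup V] [DistribMulAction G V]

/-- the operator of `g` -/
private def op (g : G) : AddMonoid.End V where
  toFun v := g • v
  map_zero' := smul_zero g
  map_add' := smul_add g

private theorem comm_Eg (T : Subgroup G) (f : AddMonoid.End V)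
    (hf : ∀ t ∈ T, ∀ v, f (t • v) = t • f v) :
    ∀ r ∈ Eg (V := V) T, ∀ v, f (r v) = r (f v) := by
  intro r hr
  unfold Eg at hr
  induction hr using Subring.closure_induction with
  | mem x hx =>
    obtain ⟨t, ht, h⟩ := hx
    intro v
    rw [h, h, hf t ht]
  | zero => intro v; exact map_zero f
  | one => intro v; rfl
  | add x y _ _ hx hy =>
    intro v
    change f (x v + y v) = x (f v) + y (f v)
    rw [map_add, hx, hy]
  | neg x _ hx =>
    intro v
    change f (- x v) = - x (f v)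
    rw [map_neg, hx]
  | mul x y _ _ hx hy =>
    intro v
    change f (x (y v)) = x (y (f v))
    rw [hx, hy]

variable [Cod M G] [Cod M V] [DG U G] [DAb U V] [DA U G V]

private theorem dfn_Eg (T : Subgroup G) : ∀ r ∈ Eg (V := V) T, DFn U (fun v : V => r v) := by
  intro r hr
  unfold Eg at hr
  induction hr using Subring.closure_induction with
  | mem x hx =>
    obtain ⟨t, ht, h⟩ := hx
    have e : (fun v : V => x v) = fun v => t • v := funext h
    rw [e]
    exact DFn_act (DFn_const t) DFn_id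
  | zero => exact DFn_const 0
  | one => exact DFn_id
  | add x y _ _ hx hy => exact DFn_aadd hx hy
  | neg x _ hx => exact DFn_aneg hx
  | mul x y _ _ hx hy => exact DFn_comp (g := fun v : V => x v) hx hy

omit [Cod M G] [DG U G] [DA U G V] in
private theorem ker_fin (hMn : Mn U (⊤ : Subgroup G) (⊤ : AddSubgroup V)) (r : AddMonoid.End V)
    (hd : DFn U (fun v : V => r v)) (hc : ∀ (g : G) (v : V), r (g • v) = g • r v) (h0 : r ≠ 0) :
    {v : V | r v = 0}.Finite := by
  let A : AddSubgroup V := AddMonoidHom.ker (r : V →+ V)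
  have hD : U.D (A : Set V) := by
    have h : U.D {v : V | r v = 0} := D_eqf hd (DFn_const 0)
    exact h
  have hI : Iv (⊤ : Subgroup G) A := by
    intro t _ v hv
    change r (t • v) = 0
    rw [hc, show r v = 0 from hv, smul_zero]
  refine hMn.2.2.2 A le_top hD hI ?_
  intro h
  apply h0
  ext v
  have h1 : v ∈ A := by rw [h]; trivial
  exact h1

private theorem surj (hMNC : T_MNC) (hAHM : T_AHM)
    (hMn : Mn U (⊤ : Subgroup G) (⊤ : AddSubgroup V)) (r : AddMonoid.End V)
    (hd : DFn U (fun v : V => r v)) (hc : ∀ (g : G) (v : V), r (g • v) = g • r v) (h0 : r ≠ 0) :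
    Function.Surjective r := by
  have hfin := ker_fin hMn r hd hc h0
  have hcn := hMNC U (⊤ : Subgroup G) (⊤ : AddSubgroup V) hMn
  obtain ⟨hD, hR, -⟩ := (hAHM U (V := V) (V' := V) (r : V →+ V) hd).1 ⊤ hcn.1
  have h1 : U.R ((⊤ ⊓ AddMonoidHom.ker (r : V →+ V) : AddSubgroup V) : Set V) = 0 := by
    have e : ((⊤ ⊓ AddMonoidHom.ker (r : V →+ V) : AddSubgroup V) : Set V) = {v : V | r v = 0} := by
      ext v
      exact ⟨fun h => h.2, fun h => ⟨trivial, h⟩⟩
    rw [e]
    exact ((Pool.Agent.H77.BCP.a_RKA U).fin (D_eqf hd (DFn_const 0)) ⟨0, map_zero r⟩).2 hfin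
  have h2 := hcn.2 _ le_top hD (by rw [hR, h1]; exact le_rfl)
  intro v
  have h3 : v ∈ (⊤ : AddSubgroup V).map (r : V →+ V) := by rw [h2]; trivial
  obtain ⟨w, -, hw⟩ := h3
  exact ⟨w, hw⟩

private theorem fixed (hFCO : T_FCO) (hconn : Conn U (⊤ : Subgroup G))
    (hMn : Mn U (⊤ : Subgroup G) (⊤ : AddSubgroup V)) (r : AddMonoid.End V)
    (hd : DFn U (fun v : V => r v)) (hc : ∀ (g : G) (v : V), r (g • v) = g • r v) (h0 : r ≠ 0) :
    ∀ v : V, r v = 0 → ∀ g : G, g • v = v := by
  intro v hv g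
  refine hFCO U (⊤ : Subgroup G) v hconn ((ker_fin hMn r hd hc h0).subset ?_) g trivial
  rintro _ ⟨g, -, rfl⟩
  change r (g • v) = 0
  rw [hc, hv, smul_zero]

end

theorem pf_VFD (hCLA : T_CLA) (hZFT : T_ZFT) (hMNC : T_MNC) (hFCO : T_FCO) (hADT : T_ADT)
    (hAHM : T_AHM) : T_VFD := by
  intro M U G V _ _ _ _ _ _ _ _ hconn hMn T hT hTc hTn
  -- the ring
  let R : Subring (AddMonoid.End V) := Eg (V := V) (Subgroup.center G)
  have hTle : T ≤ Subgroup.center G := fun t ht => Subgroup.mem_center_iff.2 fun g =>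
    (hTc t ht g).symm
  have hER : Eg (V := V) T ≤ R := Subring.closure_mono fun f ⟨t, ht, h⟩ => ⟨t, hTle ht, h⟩
  have hopT : ∀ t ∈ T, op (V := V) t ∈ R := fun t ht =>
    Subring.subset_closure ⟨t, hTle ht, fun _ => rfl⟩
  have hcG : ∀ r ∈ R, ∀ (g : G) (v : V), r (g • v) = g • r v := by
    intro r hr g v
    refine (comm_Eg (Subgroup.center G) (op (V := V) g) ?_ r hr v).symm
    intro t ht w
    change g • t • w = t • g • w
    rw [smul_smul, smul_smul, Subgroup.mem_center_iff.1 ht g]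
  have hcR : ∀ r ∈ R, ∀ s ∈ R, r * s = s * r := by
    intro r hr s hs
    ext v
    exact comm_Eg (Subgroup.center G) r (fun t _ w => hcG r hr t w) s hs v
  have hdR : ∀ r ∈ R, DFn U (fun v : V => r v) := dfn_Eg (Subgroup.center G)
  have hsurj : ∀ r ∈ R, r ≠ 0 → Function.Surjective r := fun r hr h0 =>
    surj hMNC hAHM hMn r (hdR r hr) (hcG r hr) h0
  have hfix : ∀ r ∈ R, r ≠ 0 → ∀ v : V, r v = 0 → ∀ g : G, g • v = v := fun r hr h0 =>
    fixed hFCO hconn hMn r (hdR r hr) (hcG r hr) h0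
  obtain ⟨t0, ht0, v0, hv0⟩ := hTn
  have hv00 : v0 ≠ 0 := by
    rintro rfl
    exact hv0 (smul_zero t0)
  let s0 : AddMonoid.End V := op t0 - 1
  have hs0 : ∀ v, s0 v = t0 • v - v := fun v => rfl
  have hs0R : s0 ∈ R := R.sub_mem (hopT t0 ht0) R.one_mem
  have hs00 : s0 ≠ 0 := by
    intro h
    apply hv0
    have h1 := DFunLike.congr_fun h v0
    rw [hs0] at h1
    exact sub_eq_zero.1 h1
  have hs0i : ∀ v, s0 v = 0 → v = 0 := by
    intro z hz
    obtain ⟨y, rfl⟩ := hsurj s0 hs0R hs00 z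
    have hss : s0 * s0 ≠ 0 := by
      intro h
      obtain ⟨a, ha⟩ := hsurj s0 hs0R hs00 v0
      obtain ⟨b, hb⟩ := hsurj s0 hs0R hs00 a
      have h1 := DFunLike.congr_fun h b
      change s0 (s0 b) = 0 at h1
      rw [hb, ha] at h1
      exact hv00 h1
    have h1 := hfix (s0 * s0) (R.mul_mem hs0R hs0R) hss y hz t0
    rw [hs0, h1, sub_self]
  have hbij : ∀ r ∈ R, r ≠ 0 → Function.Bijective r := by
    intro r hr h0
    refine ⟨(injective_iff_map_eq_zero r).2 fun v hv => ?_, hsurj r hr h0⟩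
    apply hs0i
    rw [hs0, hfix r hr h0 v hv t0, sub_self]
  have hne : ∀ r ∈ R, ∀ s ∈ R, r ≠ 0 → s ≠ 0 → r * s ≠ 0 := by
    intro r hr s hs h1 h2 h
    obtain ⟨a, ha⟩ := hsurj r hr h1 v0
    obtain ⟨b, hb⟩ := hsurj s hs h2 a
    have h3 := DFunLike.congr_fun h b
    change r (s b) = 0 at h3
    rw [hb, ha] at h3
    exact hv00 h3
  have hcan : ∀ s ∈ R, s ≠ 0 → ∀ f f' : AddMonoid.End V, f * s = f' * s → f = f' := by
    intro s hs h0 f f' h
    ext v
    obtain ⟨a, rfl⟩ := hsurj s hs h0 v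
    exact DFunLike.congr_fun h a
  have h10 : (1 : AddMonoid.End V) ≠ 0 := by
    intro h
    exact hv00 (DFunLike.congr_fun h v0)
  -- the field
  let C : Subring (AddMonoid.End V) :=
    { carrier := {f | ∃ s ∈ R, s ≠ 0 ∧ f * s ∈ R}
      mul_mem' := by
        rintro f f' ⟨s, hs, h0, hf⟩ ⟨s', hs', h0', hf'⟩
        refine ⟨s' * s, R.mul_mem hs' hs, hne _ hs' _ hs h0' h0, ?_⟩
        have e : f * f' * (s' * s) = f * s * (f' * s') := by
          rw [mul_assoc f s, ← hcR _ hf' _ hs, mul_assoc f f', mul_assoc f' s' s]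
        rw [e]
        exact R.mul_mem hf hf'
      one_mem' := ⟨1, R.one_mem, h10, R.mul_mem R.one_mem R.one_mem⟩
      add_mem' := by
        rintro f f' ⟨s, hs, h0, hf⟩ ⟨s', hs', h0', hf'⟩
        refine ⟨s * s', R.mul_mem hs hs', hne _ hs _ hs' h0 h0', ?_⟩
        have e : (f + f') * (s * s') = f * s * s' + f' * s' * s := by
          rw [add_mul, mul_assoc f s, mul_assoc f' s', hcR s hs s' hs']
        rw [e]
        exact R.add_mem (R.mul_mem hf hs') (R.mul_mem hf' hs)
      zero_mem' := ⟨1, R.one_mem, h10, by rw [zero_mul]; exact R.zero_mem⟩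
      neg_mem' := by
        rintro f ⟨s, hs, h0, hf⟩
        exact ⟨s, hs, h0, by rw [neg_mul]; exact R.neg_mem hf⟩ }
  have hRC : R ≤ C := fun r hr => ⟨1, R.one_mem, h10, by rw [mul_one]; exact hr⟩
  have hCc : ∀ f ∈ C, ∀ f' ∈ C, f * f' = f' * f := by
    rintro f ⟨s, hs, h0, hf⟩ f' ⟨s', hs', h0', hf'⟩
    refine hcan (s' * s) (R.mul_mem hs' hs) (hne _ hs' _ hs h0' h0) _ _ ?_
    have e1 : f * f' * (s' * s) = f * s * (f' * s') := by
      rw [mul_assoc f s, ← hcR _ hf' _ hs, mul_assoc f f', mul_assoc f' s' s]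
    have e2 : f' * f * (s' * s) = f' * s' * (f * s) := by
      rw [mul_assoc f' s', ← hcR _ hf _ hs', mul_assoc f' f, hcR s' hs' s hs, mul_assoc f s s']
    rw [e1, e2, hcR _ hf _ hf']
  have hF : IsField C :=
    { exists_pair_ne := ⟨0, 1, fun h => h10 (congrArg Subtype.val h).symm⟩
      mul_comm := fun f f' => Subtype.ext (hCc f.1 f.2 f'.1 f'.2)
      mul_inv_cancel := by
        rintro ⟨f, s, hs, h0, hf⟩ hf0
        have hr0 : f * s ≠ 0 := by
          intro h
          apply hf0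
          refine Subtype.ext (hcan s hs h0 f 0 ?_)
          rw [h, zero_mul]
        let e : V ≃+ V := AddEquiv.ofBijective ((f * s : AddMonoid.End V) : V →+ V)
          (hbij _ hf hr0)
        let i : AddMonoid.End V := e.symm.toAddMonoidHom
        have hi1 : (f * s) * i = 1 := by
          ext v
          exact e.apply_symm_apply v
        have hi2 : i * (f * s) = 1 := by
          ext v
          exact e.symm_apply_apply v
        refine ⟨⟨s * i, f * s, hf, hr0, ?_⟩, Subtype.ext ?_⟩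
        · rw [mul_assoc, hi2, mul_one]
          exact hs
        · change f * (s * i) = 1
          rw [← mul_assoc]
          exact hi1 }
  let iF : Field C := hF.toField
  let iM : Module C V :=
    { smul := fun f v => f.1 v
      one_smul := fun v => rfl
      mul_smul := fun f f' v => rfl
      smul_zero := fun f => map_zero f.1
      smul_add := fun f v w => map_add f.1 v w
      add_smul := fun f f' v => rfl
      zero_smul := fun v => rfl }
  have hsm : ∀ (f : C) (v : V), f • v = f.1 v := fun _ _ => rfl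
  refine ⟨C, iF, iM, ?_, ?_, ?_⟩
  · -- finite dimension
    have hTN : T.Normal := ⟨fun t ht g => by
      rw [← hTc t ht g, mul_assoc, mul_inv_cancel, mul_one]
      exact ht⟩
    obtain ⟨W, hW, hWn, m, g, hg⟩ := hCLA U hMn T hTN hT.1 ⟨t0, ht0, v0, hv0⟩
    obtain ⟨w, hw, hw0⟩ : ∃ w ∈ W, w ≠ 0 := by
      obtain ⟨t, -, w, hw, h⟩ := hWn
      refine ⟨w, hw, ?_⟩
      rintro rfl
      exact h (smul_zero t)
    obtain ⟨k, hk⟩ := (hZFT U T W hT (fun a ha b _ => hTc a ha b) hW hWn).2 w hw hw0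
    have htop : (⊤ : Submodule C V) = Submodule.span C (Set.range fun i => g i • w) := by
      refine (eq_top_iff.2 fun v _ => ?_).symm
      obtain ⟨u, hu, rfl⟩ := hg v
      refine Submodule.sum_mem _ fun i _ => ?_
      obtain ⟨t, t', htt, h⟩ := hk (u i) (hu i)
      let s : AddMonoid.End V := ∑ j, (op (t j) - op (t' j))
      have hsR : s ∈ R := R.sum_mem fun j _ => R.sub_mem (hopT _ (htt j).1) (hopT _ (htt j).2)
      have hsw : s w = u i := by
        rw [h]
        change (∑ j, (op (t j) - op (t' j)) : AddMonoid.End V) w = _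
        exact (AddMonoidHom.finsetSum_apply (M := V) (N := V) _ _ _).trans rfl
      have h2 : g i • u i = (⟨s, hRC hsR⟩ : C) • (g i • w) := by
        rw [hsm, hcG s hsR, hsw]
      rw [h2]
      exact Submodule.smul_mem _ _ (Submodule.subset_span ⟨i, rfl⟩)
    exact ⟨by
      rw [htop]
      exact Submodule.fg_span (Set.finite_range _)⟩
  · rintro g ⟨f, s, hs, h0, hf⟩ v
    rw [hsm, hsm]
    obtain ⟨a, rfl⟩ := hsurj s hs h0 v
    change g • (f * s) a = f (g • s a)
    rw [← hcG _ hf, ← hcG s hs]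
    rfl
  · intro z hz
    exact ⟨⟨op z, hRC (Subring.subset_closure ⟨z, hz, fun _ => rfl⟩)⟩, fun v => rfl⟩

end Pool.Agent.H67.KGR
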